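import Pool.Agent.Helper85.RL.Stmts3

/-! BLOW: the blow-up inequality, one coordinate at a time. -/

set_option autoImplicit false

namespace Pool.Helper35.RL

open Finset Pool.Helper16.HR Pool.Helper85.RL

/-- the mean of a function on a finite type -/
noncomputable def mn (α : Type) [Fintype α] (f : α → ℝ) : ℝ := (∑ x, f x) / (Fintype.card α : ℝ)

theorem mn_equiv {α β : Type} [Fintype α] [Fintype β] (e : α ≃ β) (f : β → ℝ) :
    mn α (fun x => f (e x)) = mn β f := by
  unfold mn
  rw [Fintype.card_congr e, Equiv.sum_comp e f]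

theorem mn_prod {α β : Type} [Fintype α] [Fintype β] (f : α × β → ℝ) :
    mn (α × β) f = mn α (fun a => mn β (fun b => f (a, b))) := by
  unfold mn
  rw [Fintype.sum_prod_type, Fintype.card_prod, ← Finset.sum_div, div_div, Nat.cast_mul,
    mul_comm (Fintype.card β : ℝ)]

theorem mn_comm {α β : Type} [Fintype α] [Fintype β] (f : α → β → ℝ) :
    mn α (fun a => mn β (fun b => f a b)) = mn β (fun b => mn α (fun a => f a b)) := by
  unfold mn
  rw [← Finset.sum_div, ← Finset.sum_div, Finset.sum_comm, div_div, div_div,
    mul_comm (Fintype.card β : ℝ)]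

theorem mn_mono {α : Type} [Fintype α] {f g : α → ℝ} (h : ∀ x, f x ≤ g x) : mn α f ≤ mn α g := by
  unfold mn
  exact div_le_div_of_nonneg_right (Finset.sum_le_sum fun x _ => h x) (Nat.cast_nonneg _)

theorem mn_nonneg {α : Type} [Fintype α] {f : α → ℝ} (h : ∀ x, 0 ≤ f x) : 0 ≤ mn α f := by
  unfold mn
  exact div_nonneg (Finset.sum_nonneg fun x _ => h x) (Nat.cast_nonneg _)

theorem mn_jensen {α : Type} [Fintype α] [Nonempty α] {f : α → ℝ} (h : ∀ x, 0 ≤ f x) (k : ℕ) :
    mn α f ^ k ≤ mn α (fun x => f x ^ k) := by
  have hc : (0 : ℝ) < Fintype.card α := by exact_mod_cast Fintype.card_pos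
  have key := Real.pow_arith_mean_le_arith_mean_pow (Finset.univ : Finset α)
    (fun _ => 1 / (Fintype.card α : ℝ)) f (fun _ _ => by positivity) (by
      rw [Finset.sum_const, Finset.card_univ, nsmul_eq_mul]
      field_simp) (fun x _ => h x) k
  unfold mn
  rw [← Finset.mul_sum, ← Finset.mul_sum] at key
  rw [div_eq_mul_one_div, mul_comm, div_eq_mul_one_div (∑ x, f x ^ k), mul_comm (∑ x, f x ^ k)]
  exact key

theorem mn_pi {J V : Type} [Fintype J] [DecidableEq J] [Fintype V] (f : J → V → ℝ) :
    ∏ j, mn V (f j) = mn (J → V) (fun v => ∏ j, f j (v j)) := by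
  unfold mn
  rw [Finset.prod_div_distrib, Finset.prod_const, Finset.card_univ, Fintype.card_fun,
    Finset.prod_univ_sum, Fintype.piFinset_univ, Nat.cast_pow]

theorem blow_fin (J V : Type) [Fintype J] [DecidableEq J] [Nonempty J] [Fintype V] [Nonempty V] :
    ∀ (n : ℕ) (F : (Fin n → V) → ℝ), (∀ x, 0 ≤ F x) →
      mn (Fin n → V) F ^ (Fintype.card J ^ n) ≤
        mn (Fin n → J → V) (fun z => ∏ s : Fin n → J, F (fun i => z i (s i)))
  | 0, F, _ => by
    have hF : ∀ x, F x = F default := fun x => by rw [Subsingleton.elim x default]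
    unfold mn
    simp only [hF, Finset.sum_const, Finset.prod_const, Finset.card_univ, pow_zero, pow_one,
      nsmul_eq_mul]
    simp
  | n + 1, F, hF => by
    have e1 : mn (Fin (n + 1) → V) F =
        mn (Fin n → V) (fun x => mn V (fun v => F (Fin.cons v x))) := by
      rw [← mn_equiv (Fin.consEquiv (fun _ => V)) F, mn_prod, mn_comm]
      rfl
    have hG : ∀ (v : J → V) (x : Fin n → V), 0 ≤ ∏ j, F (Fin.cons (v j) x) := fun v x =>
      Finset.prod_nonneg fun j _ => hF _
    have s1 : mn (Fin (n + 1) → V) F ^ Fintype.card J ≤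
        mn (J → V) (fun v => mn (Fin n → V) (fun x => ∏ j, F (Fin.cons (v j) x))) := by
      rw [e1]
      refine (mn_jensen (fun x => mn_nonneg fun v => hF _) _).trans ?_
      rw [mn_comm]
      refine mn_mono fun x => ?_
      have h2 := mn_pi (J := J) (V := V) (fun _ v => F (Fin.cons v x))
      rw [Finset.prod_const, Finset.card_univ] at h2
      exact h2.le
    have hcons : ∀ (v : J → V) (z : Fin n → J → V) (j : J) (s : Fin n → J),
        (fun i : Fin (n + 1) => (Fin.cons v z : Fin (n + 1) → J → V) i
          ((Fin.cons j s : Fin (n + 1) → J) i)) = Fin.cons (v j) (fun i => z i (s i)) := by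
      intro v z j s
      funext i
      refine Fin.cases ?_ (fun i => ?_) i
      · simp
      · simp
    have e2 : mn (Fin (n + 1) → J → V) (fun z => ∏ s : Fin (n + 1) → J, F (fun i => z i (s i))) =
        mn (J → V) (fun v => mn (Fin n → J → V) (fun z => ∏ s : Fin n → J,
          ∏ j, F (Fin.cons (v j) (fun i => z i (s i))))) := by
      rw [← mn_equiv (Fin.consEquiv (fun _ => J → V))
        (fun z => ∏ s : Fin (n + 1) → J, F (fun i => z i (s i))), mn_prod]
      congr 1
      funext v
      congr 1
      funext z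
      have h3 := Equiv.prod_comp (Fin.consEquiv (fun _ : Fin (n + 1) => J))
        (fun s : Fin (n + 1) → J => F (fun i => (Fin.cons v z : Fin (n + 1) → J → V) i (s i)))
      rw [Fintype.prod_prod_type, Finset.prod_comm] at h3
      refine Eq.trans h3.symm ?_
      refine Finset.prod_congr rfl fun s _ => Finset.prod_congr rfl fun j _ => ?_
      exact congrArg F (hcons v z j s)
    rw [e2]
    calc mn (Fin (n + 1) → V) F ^ (Fintype.card J ^ (n + 1))
        = (mn (Fin (n + 1) → V) F ^ Fintype.card J) ^ (Fintype.card J ^ n) := by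
          rw [← pow_mul, pow_succ, mul_comm]
      _ ≤ (mn (J → V) (fun v => mn (Fin n → V) (fun x => ∏ j, F (Fin.cons (v j) x)))) ^
          (Fintype.card J ^ n) := pow_le_pow_left₀ (pow_nonneg (mn_nonneg hF) _) s1 _
      _ ≤ mn (J → V) (fun v => mn (Fin n → V) (fun x => ∏ j, F (Fin.cons (v j) x)) ^
          (Fintype.card J ^ n)) := mn_jensen (fun v => mn_nonneg fun x => hG v x) _
      _ ≤ _ := mn_mono fun v => blow_fin J V n (fun x => ∏ j, F (Fin.cons (v j) x)) (hG v)

theorem BLOW : ST_BLOW := by
  intro I J V _ _ _ _ _ _ _ F hF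
  set n := Fintype.card I with hn
  let e : I ≃ Fin n := Fintype.equivFin I
  have key := blow_fin J V n (fun y => F (fun i => y (e i))) (fun _ => hF _)
  have a1 : mn (Fin n → V) (fun y => F (fun i => y (e i))) = mn (I → V) F := by
    let E : (Fin n → V) ≃ (I → V) :=
      { toFun := fun y i => y (e i), invFun := fun x k => x (e.symm k)
        left_inv := fun y => by funext k; simp
        right_inv := fun x => by funext i; simp }
    exact mn_equiv E F
  have a2 : mn (Fin n → J → V) (fun z => ∏ s : Fin n → J, F (fun i => z (e i) (s (e i)))) =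
      mn (I → J → V) (fun z => ∏ s : I → J, F (fun i => z i (s i))) := by
    let E : (Fin n → J → V) ≃ (I → J → V) :=
      { toFun := fun y i => y (e i), invFun := fun x k => x (e.symm k)
        left_inv := fun y => by funext k; simp
        right_inv := fun x => by funext i; simp }
    let E' : (Fin n → J) ≃ (I → J) :=
      { toFun := fun y i => y (e i), invFun := fun x k => x (e.symm k)
        left_inv := fun y => by funext k; simp
        right_inv := fun x => by funext i; simp }
    rw [← mn_equiv E (fun z => ∏ s : I → J, F (fun i => z i (s i)))]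
    congr 1
    funext z
    exact Equiv.prod_comp E' (fun s : I → J => F (fun i => z (e i) (s i)))
  have key2 : mn (Fin n → V) (fun y => F (fun i => y (e i))) ^ (Fintype.card J ^ n) ≤
      mn (Fin n → J → V) (fun z => ∏ s : Fin n → J, F (fun i => z (e i) (s (e i)))) := key
  rw [a1, a2] at key2
  exact key2

end Pool.Helper35.RL
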