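import Pool.Agent.Helper85.RL.Stmts2
import Pool.Agent.Helper16.HR.Prim

/-! PRIML: the bound is primitive recursive. -/

set_option autoImplicit false

namespace Pool.Helper35.RL

open Pool.Helper16.HR Pool.Helper85.RL

theorem clog_eq (m : ℕ) : Nat.findGreatest (fun k => 2 ^ (k - 1) < m) m = Nat.clog 2 m := by
  rw [Nat.findGreatest_eq_iff]
  refine ⟨?_, ?_, ?_⟩
  · rw [Nat.clog_le_iff_le_pow one_lt_two]
    exact Nat.lt_two_pow_self.le
  · intro h
    rw [← Nat.lt_clog_iff_pow_lt one_lt_two]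
    omega
  · intro k h1 _ h2
    rw [← Nat.lt_clog_iff_pow_lt one_lt_two] at h2
    omega

theorem prim_clog : Primrec (fun m : ℕ => Nat.clog 2 m) := by
  have h1 : PrimrecRel (fun m k : ℕ => 2 ^ (k - 1) < m) := by
    have h2 : Primrec₂ (fun _ k : ℕ => 2 ^ (k - 1)) := by
      refine prim_pow.comp₂ (Primrec₂.const 2) ?_
      exact Primrec.nat_sub.comp₂ Primrec₂.right (Primrec₂.const 1)
    exact Primrec.nat_lt.comp₂ h2 Primrec₂.left
  exact (Primrec.nat_findGreatest Primrec.id h1).of_eq fun m => clog_eq m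

theorem PRIML : ST_PRIML := by
  intro l
  have h4 : Primrec₂ (fun h m : ℕ => 2 ^ (3 * h + 9) * Nat.clog 2 m) := by
    refine Primrec.nat_mul.comp₂ ?_ (prim_clog.comp₂ Primrec₂.right)
    refine prim_pow.comp₂ (Primrec₂.const 2) ?_
    refine Primrec.nat_add.comp₂ ?_ (Primrec₂.const 9)
    exact Primrec.nat_mul.comp₂ (Primrec₂.const 3) Primrec₂.left
  exact (st_PRIM l).1.comp₂ h4

end Pool.Helper35.RL
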