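import Pool.Agent.Helper85.RL.Stmts3
import Pool.Agent.Helper35.RL.PRIML

/-! PRIMM: the bound is primitive recursive. -/

set_option autoImplicit false

namespace Pool.Helper35.RL

open Pool.Helper16.HR Pool.Helper85.RL

theorem PRIMM : ST_PRIMM := by
  intro l
  have h4 : Primrec₂ (fun h m : ℕ => 2 ^ (3 * h + 10) * Nat.clog 2 m) := by
    refine Primrec.nat_mul.comp₂ ?_ (prim_clog.comp₂ Primrec₂.right)
    refine prim_pow.comp₂ (Primrec₂.const 2) ?_
    refine Primrec.nat_add.comp₂ ?_ (Primrec₂.const 10)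
    exact Primrec.nat_mul.comp₂ (Primrec₂.const 3) Primrec₂.left
  exact (st_PRIM l).1.comp₂ h4

end Pool.Helper35.RL
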